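import Pool.Agent.Helper9.UP.StW

/-!
Module AX of project UP (MP_d466de_nt): assembly of the rules.
-/

set_option autoImplicit false

noncomputable section

namespace Pool.Agent.Helper79.UP

open Pool.Agent.Helper9.UP

theorem hAX (hU : StUS) (hL : StLS) (hT : StTV) : StAX := by
  intro ω j0 Nm hω hj0 hNm
  have hN : ∀ N : ℕ, N ≤ Nm → (N : ℝ) * ω ≤ 2 := by
    intro N h
    have h1 : (N : ℝ) ≤ (Nm : ℝ) := by exact_mod_cast h
    exact (mul_le_mul_of_nonneg_right h1 hω.le).trans hNm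
  refine ⟨?_, ?_, ?_, ?_, ?_, ?_⟩
  · intro N _
    exact (hT ω j0 Nm N j0 1 hω le_rfl).1
  · intro N _
    exact (hT ω j0 Nm N j0 1 hω le_rfl).2.1
  · intro N j μ μ' h1 h2 h3 h4 h5
    exact hU ω j0 Nm N j μ μ' hω hj0 h1 h2 h3 (hN N h3) h4 h5
  · intro N j μ h1 _ h3
    exact (hT ω j0 Nm N j μ hω h1).2.2.1 h3
  · intro N j μ μ' h1 h2 h3 h4 h5
    exact hL ω j0 Nm N j μ μ' hω hj0 h1 h2 h3 (hN N h3) h4 h5
  · intro N j h1 _
    exact (hT ω j0 Nm N j 0 hω h1).2.2.2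

end Pool.Agent.Helper79.UP
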