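import Pool.Agent.Helper9.UP.StC

/-!
Module NU of project UP (MP_d466de_nt): the error terms.
-/

set_option autoImplicit false

noncomputable section

namespace Pool.Agent.Helper79.UP

open Pool.Agent.Helper9.UP
open Finset Polynomial

theorem hNU (hEX : StEX) : StNU := by
  intro κ δ θ B Bs hκ hδ hθ hB hBs
  obtain ⟨Λ₁, hΛ₁, hex⟩ := hEX
  refine ⟨(Bs + 5 + B) / δ + 8 * Bs + 12 + 5 / θ, max Λ₁ (4 + |Real.log (5 / κ)|), ?_⟩
  intro Λ hΛ f hf N w hN1 hN2 hw1 hw2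
  set C₁ : ℝ := (Bs + 5 + B) / δ + 8 * Bs + 12 + 5 / θ with hC₁
  have hΛa : Λ₁ ≤ Λ := (le_max_left _ _).trans hΛ
  have hΛb : 4 + |Real.log (5 / κ)| ≤ Λ := (le_max_right _ _).trans hΛ
  have hlk : Real.log (5 / κ) ≤ Λ - 4 := by
    have := le_abs_self (Real.log (5 / κ)); linarith
  have hΛ4 : 4 ≤ Λ := by
    have := abs_nonneg (Real.log (5 / κ)); linarith
  have hΛ0 : 0 < Λ := by linarith
  have h1 : 1 ≤ Λ := by linarith
  -- powers
  have p2 : 1 ≤ Λ ^ 2 := one_le_pow₀ h1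
  have p12 : Λ ≤ Λ ^ 2 := le_self_pow₀ h1 (by norm_num)
  have p24 : Λ ^ 2 ≤ Λ ^ 4 := pow_le_pow_right₀ h1 (by norm_num)
  have p45 : Λ ^ 4 ≤ Λ ^ 5 := pow_le_pow_right₀ h1 (by norm_num)
  have p5 : 1 ≤ Λ ^ 5 := one_le_pow₀ h1
  -- constants
  have c1 : 0 ≤ (Bs + 5 + B) / δ := div_nonneg (by linarith) hδ.le
  have c2 : 0 ≤ 5 / θ := by positivity
  have hC12 : 12 + 8 * Bs ≤ C₁ := by rw [hC₁]; linarith
  have hCδ : Bs + 5 + B ≤ δ * C₁ := by
    have e : δ * ((Bs + 5 + B) / δ) = Bs + 5 + B := by field_simp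
    have : (Bs + 5 + B) / δ ≤ C₁ := by rw [hC₁]; linarith
    calc Bs + 5 + B = δ * ((Bs + 5 + B) / δ) := e.symm
      _ ≤ δ * C₁ := mul_le_mul_of_nonneg_left this hδ.le
  have hCθ : 5 ≤ θ * C₁ := by
    have e : θ * (5 / θ) = 5 := by field_simp
    have : 5 / θ ≤ C₁ := by rw [hC₁]; linarith
    calc (5 : ℝ) = θ * (5 / θ) := e.symm
      _ ≤ θ * C₁ := mul_le_mul_of_nonneg_left this hθ.le
  have hC₁0 : 0 < C₁ := by linarith
  set l : ℝ := Real.log N with hl
  have hlpos : 0 < l := lt_of_lt_of_le (by positivity) hN1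
  have hN0 : (0 : ℝ) < N := by
    rcases Nat.eq_zero_or_pos N with h | h
    · exfalso
      rw [hl, h] at hlpos
      simp at hlpos
    · exact_mod_cast h
  have hNexp : (N : ℝ) = Real.exp l := by rw [hl, Real.exp_log hN0]
  have hpow : ∀ x : ℝ, (N : ℝ) ^ x = Real.exp (x * l) := by
    intro x
    rw [Real.rpow_def_of_pos hN0, mul_comm]
  set d : ℝ := (f.natDegree : ℝ) with hd
  have hd1 : 1 ≤ d := by rw [hd]; exact_mod_cast hf.deg
  have hdΛ : d ≤ Λ := hf.degLe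
  set E : ℝ := Real.exp (-(3 * Λ ^ 2)) with hE
  have hE0 : 0 < E := Real.exp_pos _
  -- w
  have hw0 : (0 : ℝ) < w := by
    have : (0 : ℝ) < (N : ℝ) ^ θ / 2 := by
      rw [hpow]; positivity
    linarith
  have hwN : (w : ℝ) ≤ N := by exact_mod_cast hw2
  have hlw : Real.log w ≤ Real.exp (Λ / 8) := by
    have a1 : Real.log w ≤ l := Real.log_le_log hw0 hwN
    have a2 : Real.exp (Λ / 16) ≤ Real.exp (Λ / 8) := Real.exp_le_exp.2 (by linarith)
    linarith
  have hV : Real.exp (-(2 * Λ ^ 2)) ≤ VV f w := (hex Λ hΛa f hf w hlw).2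
  -- main term
  have hPM0 : (0 : ℝ) < (PM f : ℝ) := by
    unfold PM
    exact_mod_cast primorial_pos _
  have hPM : (PM f : ℝ) ≤ Real.exp (3 * Λ) := by
    have a1 : ((PM f : ℕ) : ℝ) ≤ ((4 ^ (2 * f.natDegree) : ℕ) : ℝ) := by
      unfold PM
      exact_mod_cast primorial_le_four_pow _
    have a2 : ((4 ^ (2 * f.natDegree) : ℕ) : ℝ) = Real.exp (2 * d * Real.log 4) := by
      push_cast
      rw [← Real.rpow_natCast, Real.rpow_def_of_pos (by norm_num)]
      congr 1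
      push_cast
      rw [hd]
      ring
    rw [a2] at a1
    refine a1.trans (Real.exp_le_exp.2 ?_)
    have a3 : Real.log 4 ≤ 3 / 2 := by
      have : Real.log 4 = 2 * Real.log 2 := by
        rw [show (4 : ℝ) = 2 ^ 2 by norm_num, Real.log_pow]
        norm_num
      rw [this]
      linarith [Real.log_two_lt_d9]
    have a4 : 2 * d * Real.log 4 ≤ 2 * d * (3 / 2) :=
      mul_le_mul_of_nonneg_left a3 (by linarith)
    linarith
  have hmain : 5 * (N * E) ≤ κ * ((N : ℝ) / PM f) * VV f w := by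
    have a1 : (N : ℝ) * Real.exp (-(3 * Λ)) ≤ (N : ℝ) / PM f := by
      rw [Real.exp_neg, ← div_eq_mul_inv]
      exact div_le_div_of_nonneg_left hN0.le hPM0 hPM
    have a2 : κ * (N * Real.exp (-(3 * Λ))) * Real.exp (-(2 * Λ ^ 2))
        ≤ κ * ((N : ℝ) / PM f) * VV f w := by
      refine mul_le_mul (mul_le_mul_of_nonneg_left a1 hκ.le) hV (Real.exp_pos _).le ?_
      have : 0 ≤ (N : ℝ) / PM f := by positivity
      exact mul_nonneg hκ.le this
    refine le_trans ?_ a2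
    have a3 : 5 / κ ≤ Real.exp (Λ ^ 2 - 3 * Λ) := by
      have h5 : 0 < 5 / κ := by positivity
      rw [← Real.log_le_iff_le_exp h5]
      nlinarith
    have a4 : 5 * E ≤ κ * Real.exp (-(3 * Λ)) * Real.exp (-(2 * Λ ^ 2)) := by
      have a5 : Real.exp (-(3 * Λ)) * Real.exp (-(2 * Λ ^ 2)) = Real.exp (Λ ^ 2 - 3 * Λ) * E := by
        rw [hE, ← Real.exp_add, ← Real.exp_add]
        congr 1
        ring
      rw [mul_assoc, a5]
      have a6 : 5 ≤ κ * Real.exp (Λ ^ 2 - 3 * Λ) := by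
        rw [div_le_iff₀ hκ] at a3
        linarith
      calc 5 * E ≤ κ * Real.exp (Λ ^ 2 - 3 * Λ) * E := mul_le_mul_of_nonneg_right a6 hE0.le
        _ = κ * (Real.exp (Λ ^ 2 - 3 * Λ) * E) := by ring
    calc 5 * (N * E) = N * (5 * E) := by ring
      _ ≤ N * (κ * Real.exp (-(3 * Λ)) * Real.exp (-(2 * Λ ^ 2))) :=
        mul_le_mul_of_nonneg_left a4 hN0.le
      _ = κ * (N * Real.exp (-(3 * Λ))) * Real.exp (-(2 * Λ ^ 2)) := by ring
  -- first error term
  have hT1 : B * Real.exp (Bs * Λ ^ 4 + 2 * Λ ^ 2) * (N : ℝ) ^ (1 - δ) ≤ N * E := by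
    have a1 : (N : ℝ) ^ (1 - δ) = N * Real.exp (-(δ * l)) := by
      rw [hpow]
      rw [hNexp]
      rw [← Real.exp_add]
      congr 1
      ring
    rw [a1]
    have a2 : B * Real.exp (Bs * Λ ^ 4 + 2 * Λ ^ 2) * (N * Real.exp (-(δ * l)))
        = N * (B * Real.exp (Bs * Λ ^ 4 + 2 * Λ ^ 2 - δ * l)) := by
      rw [sub_eq_add_neg, Real.exp_add (Bs * Λ ^ 4 + 2 * Λ ^ 2)]
      ring
    rw [a2]
    refine mul_le_mul_of_nonneg_left ?_ hN0.le
    have a3 : δ * (C₁ * Λ ^ 5) ≤ δ * l := mul_le_mul_of_nonneg_left hN1 hδ.le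
    have a4 : (Bs + 5 + B) * Λ ^ 5 ≤ δ * C₁ * Λ ^ 5 :=
      mul_le_mul_of_nonneg_right hCδ (by positivity)
    have a5 : Bs * Λ ^ 4 ≤ Bs * Λ ^ 5 := mul_le_mul_of_nonneg_left p45 (by linarith)
    have a6 : B * 1 ≤ B * Λ ^ 5 := mul_le_mul_of_nonneg_left p5 hB
    have a7 : Bs * Λ ^ 4 + 2 * Λ ^ 2 - δ * l ≤ -(3 * Λ ^ 2) + -B := by nlinarith
    have a8 : Real.exp (Bs * Λ ^ 4 + 2 * Λ ^ 2 - δ * l) ≤ E * Real.exp (-B) := by
      rw [hE, ← Real.exp_add]
      exact Real.exp_le_exp.2 a7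
    have a9 : B * Real.exp (-B) ≤ 1 := by
      rw [Real.exp_neg, ← div_eq_mul_inv, div_le_one (Real.exp_pos _)]
      linarith [Real.add_one_le_exp B]
    calc B * Real.exp (Bs * Λ ^ 4 + 2 * Λ ^ 2 - δ * l) ≤ B * (E * Real.exp (-B)) :=
          mul_le_mul_of_nonneg_left a8 hB
      _ = E * (B * Real.exp (-B)) := by ring
      _ ≤ E * 1 := mul_le_mul_of_nonneg_left a9 hE0.le
      _ = E := mul_one _
  -- second error term
  have hT2 : N * Real.exp (2 * Bs * Λ ^ 4 - l / (4 * Λ)) ≤ N * E := by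
    refine mul_le_mul_of_nonneg_left (Real.exp_le_exp.2 ?_) hN0.le
    have a1 : C₁ * Λ ^ 4 / 4 ≤ l / (4 * Λ) := by
      rw [div_le_div_iff₀ (by norm_num) (by positivity)]
      nlinarith
    have a2 : (12 + 8 * Bs) * Λ ^ 4 ≤ C₁ * Λ ^ 4 := mul_le_mul_of_nonneg_right hC12 (by positivity)
    nlinarith
  -- third error term
  have hT3 : d * N / w ≤ N * E := by
    have a1 : d * N / w ≤ Λ * N / (N ^ θ / 2) := by
      refine div_le_div₀ (by positivity) ?_ (by rw [hpow]; positivity) hw1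
      exact mul_le_mul_of_nonneg_right hdΛ hN0.le
    refine a1.trans ?_
    have a2 : Λ * (N : ℝ) / ((N : ℝ) ^ θ / 2) = N * (2 * Λ * Real.exp (-(θ * l))) := by
      rw [hpow, Real.exp_neg]
      field_simp
    rw [a2]
    refine mul_le_mul_of_nonneg_left ?_ hN0.le
    have a3 : 2 * Λ ≤ Real.exp (2 * Λ) := by linarith [Real.add_one_le_exp (2 * Λ)]
    have a4 : θ * (C₁ * Λ ^ 5) ≤ θ * l := mul_le_mul_of_nonneg_left hN1 hθ.le
    have a5 : 5 * Λ ^ 5 ≤ θ * C₁ * Λ ^ 5 := mul_le_mul_of_nonneg_right hCθ (by positivity)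
    calc 2 * Λ * Real.exp (-(θ * l)) ≤ Real.exp (2 * Λ) * Real.exp (-(θ * l)) :=
          mul_le_mul_of_nonneg_right a3 (Real.exp_pos _).le
      _ = Real.exp (2 * Λ + -(θ * l)) := by rw [Real.exp_add]
      _ ≤ E := by
        rw [hE]
        exact Real.exp_le_exp.2 (by nlinarith)
  -- fourth error term
  have hT4 : d * (N : ℝ) ^ vd f ≤ N * E := by
    have a1 : vd f * l ≤ l - l / (3 * Λ) := by
      have b1 : vd f = 1 - 1 / (2 * d + 1) := by
        unfold vd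
        rw [← hd]
        field_simp
        ring
      have b2 : 1 / (3 * Λ) ≤ 1 / (2 * d + 1) := by
        refine one_div_le_one_div_of_le (by linarith) (by linarith)
      rw [b1]
      have b3 : l * (1 / (3 * Λ)) ≤ l * (1 / (2 * d + 1)) := mul_le_mul_of_nonneg_left b2 hlpos.le
      have b4 : l / (3 * Λ) = l * (1 / (3 * Λ)) := by ring
      rw [b4]
      nlinarith
    have a2 : C₁ * Λ ^ 4 / 3 ≤ l / (3 * Λ) := by
      rw [div_le_div_iff₀ (by norm_num) (by positivity)]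
      nlinarith
    have a3 : 12 * Λ ^ 4 ≤ C₁ * Λ ^ 4 := mul_le_mul_of_nonneg_right (by linarith) (by positivity)
    have a4 : d ≤ Real.exp Λ := by linarith [Real.add_one_le_exp Λ]
    calc d * (N : ℝ) ^ vd f ≤ Real.exp Λ * Real.exp (l - l / (3 * Λ)) := by
          rw [hpow]
          exact mul_le_mul a4 (Real.exp_le_exp.2 a1) (Real.exp_pos _).le (Real.exp_pos _).le
      _ = N * Real.exp (Λ - l / (3 * Λ)) := by
          rw [hNexp]
          rw [← Real.exp_add, ← Real.exp_add]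
          congr 1
          ring
      _ ≤ N * E := by
          refine mul_le_mul_of_nonneg_left (Real.exp_le_exp.2 ?_) hN0.le
          nlinarith
  -- the left side
  have hT5 : (N : ℝ) ^ (3 / 4 : ℝ) ≤ N * E := by
    rw [hpow]
    rw [hNexp]
    rw [hE, ← Real.exp_add]
    refine Real.exp_le_exp.2 ?_
    have a3 : 12 * Λ ^ 5 ≤ C₁ * Λ ^ 5 := mul_le_mul_of_nonneg_right (by linarith) (by positivity)
    linarith
  unfold Er
  rw [← hd, ← hl]
  linarith

end Pool.Agent.Helper79.UP
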